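import Pool.Agent.V1166.FP.Final

/-!
# MP_342ba6_al, Q1 (positive answer)

For every ring homomorphism `φ : R → A`, in every acyclic complex of `A/R`-flaprojective left
`A`-modules whose modules of cocycles are flat over `A`, the modules of cocycles are
`A/R`-flaprojective.
-/

namespace Pool.Agent.Results.MP_342ba6_al.FlaprojectivePeriodicity

universe u

/-- A left `B`-module `M` is flat. Over an arbitrary ring this is stated by the equational
criterion: every linear relation `∑ aᵢ xᵢ = 0` in `M` is trivial, that is, there are finitely many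
`yⱼ` in `M` and scalars `bᵢⱼ` with `xᵢ = ∑ⱼ bᵢⱼ yⱼ` and `∑ᵢ aᵢ bᵢⱼ = 0`. -/
def IsFlat (B : Type u) [Ring B] (M : Type u) [AddCommGroup M] [Module B M] : Prop :=
  ∀ (n : ℕ) (a : Fin n → B) (x : Fin n → M), ∑ i, a i • x i = 0 →
    ∃ (m : ℕ) (y : Fin m → M) (b : Fin n → Fin m → B),
      (∀ i, x i = ∑ j, b i j • y j) ∧ ∀ j, ∑ i, a i * b i j = 0

/-- `Ext¹_B(M, C) = 0`: every short exact sequence `0 → C → X → M → 0` of left `B`-modules
splits. -/
def ExtOneVanishes (B : Type u) [Ring B] (M C : Type u) [AddCommGroup M] [Module B M]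
    [AddCommGroup C] [Module B C] : Prop :=
  ∀ (X : Type u) [AddCommGroup X] [Module B X] (i : C →ₗ[B] X) (p : X →ₗ[B] M),
    Function.Injective i → Function.Surjective p → LinearMap.range i = LinearMap.ker p →
    ∃ s : M →ₗ[B] X, p ∘ₗ s = LinearMap.id

/-- A left `R`-module `C` is cotorsion: `Ext¹_R(G, C) = 0` for every flat left `R`-module `G`. -/
def IsCotorsion (R : Type u) [Ring R] (C : Type u) [AddCommGroup C] [Module R C] : Prop :=
  ∀ (G : Type u) [AddCommGroup G] [Module R G], IsFlat R G → ExtOneVanishes R G C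

/-- A left `A`-module `F` is `A/R`-flaprojective along `φ : R → A`: `Ext¹_A(F, C) = 0` for every
left `A`-module `C` whose underlying `R`-module (restriction of scalars along `φ`) is
cotorsion. -/
def IsFlaprojective {R A : Type u} [Ring R] [Ring A] (φ : R →+* A) (F : Type u) [AddCommGroup F]
    [Module A F] : Prop :=
  ∀ (C : Type u) [AddCommGroup C] [Module A C] [Module R C],
    (∀ (r : R) (x : C), r • x = φ r • x) → IsCotorsion R C → ExtOneVanishes A F C

/-- Periodicity for relatively flaprojective modules: if `F` is an acyclic complex, unbounded in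
both directions, of `A/R`-flaprojective left `A`-modules with flat modules of cocycles, then all
modules of cocycles are `A/R`-flaprojective. -/
theorem result {R A : Type u} [Ring R] [Ring A] (φ : R →+* A) (F : ℤ → Type u)
    [∀ n, AddCommGroup (F n)] [∀ n, Module A (F n)] (d : ∀ n, F n →ₗ[A] F (n + 1))
    (acyclic : ∀ n, LinearMap.range (d n) = LinearMap.ker (d (n + 1)))
    (flapro : ∀ n, IsFlaprojective φ (F n)) (flat : ∀ n, IsFlat A (LinearMap.ker (d n))) :
    ∀ n, IsFlaprojective φ (LinearMap.ker (d n)) :=
  Pool.Agent.V1166.FP.flaprojective_periodicity F d acyclic flapro flat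

end Pool.Agent.Results.MP_342ba6_al.FlaprojectivePeriodicity
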